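import Pool.Agent.H.MP_737f38_pr.Basic

set_option autoImplicit false
open Set

namespace Pool.Agent.Results.MP_737f38_pr.AboveOne
open Pool.Agent.H.MP_737f38_pr

theorem result (q : ℝ) (hq : 1 < q) : ∃ (m : ℕ) (a b : Fin m → ℝ), 1 ≤ m ∧
    (∀ i, a i ∈ Icc (0 : ℝ) 1 ∧ b i ∈ Icc (0 : ℝ) 1) ∧
    StrictConvexOn ℝ (Icc 0 1) fun t : ℝ => renyi q fun i => (1 - t) * a i + t * b i := by
  set ρ : ℝ := (1 / 4 : ℝ) ^ (q - 1)⁻¹ with hρ
  have hq1 : 0 < q - 1 := by linarith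
  have r0 : 0 < ρ := by positivity
  have r1 : ρ < 1 := Real.rpow_lt_one (by norm_num) (by norm_num) (by positivity)
  have r2 : ρ ^ (q - 1) = 1 / 4 := Real.rpow_inv_rpow (by norm_num) hq1.ne'
  set ε : ℝ := ρ / (2 + ρ) with hε
  have e0 : 0 < ε := by positivity
  have e1 : ε < 1 / 2 := by rw [hε, div_lt_iff₀ (by positivity)]; linarith
  have e2 : 2 * ε * (1 - ε) = ρ * (1 - ε) ^ 2 := by rw [hε]; field_simp; ring
  have p0 : 0 < (1 - ε) ^ 2 := pow_pos (by linarith) 2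
  have p1 : 0 < 2 * ε * (1 - ε) := by rw [e2]; positivity
  have p2 : 0 < ε ^ 2 := by positivity
  let S : ℝ → ℝ := fun w => ((1 - ε) ^ 2 - w) ^ q + (2 * ε * (1 - ε) + 2 * w) ^ q + (ε ^ 2 - w) ^ q
  have S0 : 0 < S 0 := by simp only [S, sub_zero, mul_zero, add_zero]; positivity
  have c : ContDiffAt ℝ 2 S 0 :=
    ((ContDiffAt.rpow_const_of_ne (by fun_prop) (by simpa using p0.ne')).add
      (ContDiffAt.rpow_const_of_ne (by fun_prop) (by linarith))).add
      (ContDiffAt.rpow_const_of_ne (by fun_prop) (by simpa using p2.ne'))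
  have d : HasDerivAt S (-1 * q * ((1 - ε) ^ 2 - 0) ^ (q - 1)
      + 2 * 1 * q * (2 * ε * (1 - ε) + 2 * 0) ^ (q - 1) + -1 * q * (ε ^ 2 - 0) ^ (q - 1)) 0 :=
    ((((hasDerivAt_id (0 : ℝ)).const_sub _).rpow_const (Or.inr hq.le)).add
      ((((hasDerivAt_id (0 : ℝ)).const_mul 2).const_add _).rpow_const (Or.inr hq.le))).add
      (((hasDerivAt_id (0 : ℝ)).const_sub _).rpow_const (Or.inr hq.le))
  obtain ⟨δ0, h0, h⟩ := conv_sq (fun w => 1 / (1 - q) * Real.log (S w))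
    (contDiffAt_const.mul (c.log S0.ne')) (by
      rw [((d.log S0.ne').const_mul _).deriv]
      refine mul_pos_of_neg_of_neg (div_neg_of_pos_of_neg one_pos (by linarith))
        (div_neg_of_neg_of_pos ?_ S0)
      simp only [sub_zero, mul_zero, add_zero]
      rw [e2, Real.mul_rpow r0.le p0.le, r2]
      have a1 := Real.rpow_pos_of_pos p0 (q - 1)
      have a2 := Real.rpow_pos_of_pos p2 (q - 1)
      nlinarith)
  set δ := min δ0 ε
  have d0 : 0 < δ := lt_min h0 e0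
  have d1 : δ ≤ ε := min_le_right _ _
  refine ⟨2, ![ε - δ, ε + δ], ![ε + δ, ε - δ], by norm_num, ?_, ?_⟩
  · intro i
    fin_cases i <;> simp <;> refine ⟨⟨?_, ?_⟩, ?_, ?_⟩ <;> linarith
  · convert h δ d0 (min_le_left _ _) using 2 with t
    rw [renyi, sum_two]
    simp only [S, Matrix.cons_val_zero, Matrix.cons_val_one]
    congr 4 <;> [congr 1; congr 1; skip] <;> ring

end Pool.Agent.Results.MP_737f38_pr.AboveOne
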