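import Pool.Agent.H.MP_737f38_pr.Basic

set_option autoImplicit false
open Set

namespace Pool.Agent.Results.MP_737f38_pr.MonotoneTwo
open Pool.Agent.H.MP_737f38_pr

theorem result : ∃ (m : ℕ) (a b : Fin m → ℝ), 1 ≤ m ∧
    (∀ i, 0 ≤ a i ∧ a i < b i ∧ b i ≤ 1) ∧
    StrictConvexOn ℝ (Icc 0 1) fun t : ℝ => renyi 2 fun i => (1 - t) * a i + t * b i := by
  let S : ℝ → ℝ := fun w => 2 * (9 / 100 + w) ^ 2 + 2 * w + (41 / 50 - 2 * w) ^ 2
  have S0 : 0 < S 0 := by norm_num [S]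
  have c : ContDiffAt ℝ 2 S 0 := by simp only [S]; fun_prop
  have d : HasDerivAt S (-23 / 25) 0 := by
    have := ((((hasDerivAt_id (0 : ℝ)).const_add (9 / 100)).pow 2).const_mul 2 |>.add
      ((hasDerivAt_id (0 : ℝ)).const_mul 2)).add
      ((((hasDerivAt_id (0 : ℝ)).const_mul 2).const_sub (41 / 50)).pow 2)
    exact this.congr_deriv (by norm_num)
  obtain ⟨δ0, h0, h⟩ := conv_sq (fun w => 1 / (1 - 2) * Real.log (S w))
    (contDiffAt_const.mul (c.log S0.ne')) (by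
      rw [((d.log S0.ne').const_mul _).deriv]
      norm_num [S])
  set δ := min δ0 (1 / 10)
  have d0 : 0 < δ := lt_min h0 (by norm_num)
  have d1 : δ ≤ 1 / 10 := min_le_right _ _
  refine ⟨2, ![1 / 10 - δ, 9 / 10 - δ], ![1 / 10 + δ, 9 / 10 + δ], by norm_num, ?_, ?_⟩
  · intro i
    fin_cases i <;> simp <;> refine ⟨?_, ?_, ?_⟩ <;> linarith
  · convert h δ d0 (min_le_left _ _) using 2 with t
    rw [renyi, sum_two]
    simp only [S, Matrix.cons_val_zero, Matrix.cons_val_one, Real.rpow_two]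
    congr 2
    ring

end Pool.Agent.Results.MP_737f38_pr.MonotoneTwo
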